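import Pool.Agent.H773.LK.Spec

/-!
# KMI: the mixed roots in the open half strip (project LK, MP_daec8e_mp)
-/

set_option autoImplicit false

noncomputable section

namespace Pool.Agent.H671.LK

open MeasureTheory Filter Topology Set
open scoped ENNReal NNReal ComplexConjugate InnerProductSpace
open Pool.Agent.H773.LK

lemma csq_sq (w : ℂ) : csq w ^ 2 = w := by
  unfold csq
  rw [← Complex.cpow_nat_mul]
  norm_num

lemma csq_re (w : ℂ) : 0 ≤ (csq w).re := by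
  unfold csq
  rcases eq_or_ne w 0 with rfl | hw
  · rw [Complex.zero_cpow (by norm_num)]; simp
  have h : ((1 / 2 : ℂ)) = ((1 / 2 : ℝ) : ℂ) := by push_cast; ring
  rw [h, Complex.cpow_ofReal_re]
  apply mul_nonneg (Real.rpow_nonneg (norm_nonneg _) _)
  apply Real.cos_nonneg_of_mem_Icc
  have h1 := Complex.neg_pi_lt_arg w
  have h2 := Complex.arg_le_pi w
  constructor <;> linarith

lemma csq_norm (w : ℂ) : ‖csq w‖ ^ 2 = ‖w‖ := by
  rw [← norm_pow, csq_sq]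

lemma conj_csq {w : ℂ} (h : w.im ≠ 0) : conj (csq (conj w)) = csq w := by
  unfold csq
  have h1 := Complex.cpow_conj w (1 / 2) (by
    intro h2
    rw [Complex.arg_eq_pi_iff] at h2
    exact h h2.2)
  rw [← h1]
  congr 1
  rw [map_div₀, map_one, map_ofNat]

lemma csq_diff {f : ℂ → ℂ} {s : Set ℂ} (hf : DifferentiableOn ℂ f s) (h : ∀ x ∈ s, (f x).im ≠ 0) :
    DifferentiableOn ℂ (fun x => csq (f x)) s := by
  unfold csq
  exact hf.cpow_const fun x hx => Or.inr (h x hx)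

lemma w_im (β : ℝ) (θ : ℂ) (lam : ℝ) (m : ℤ) :
    (((β : ℂ) * ((m : ℂ) + θ)) ^ 2 - (lam : ℂ)).im = 2 * β ^ 2 * ((m : ℝ) + θ.re) * θ.im := by
  simp [pow_two, Complex.mul_im, Complex.mul_re]
  ring

lemma kmi_eq {β : ℝ} {θ : ℂ} {lam : ℝ} {m : ℤ}
    (h : (((β : ℂ) * ((m : ℂ) + θ)) ^ 2 - (lam : ℂ)).im ≠ 0) :
    kmi β θ lam m = csq (((β : ℂ) * ((m : ℂ) + θ)) ^ 2 - (lam : ℂ)) := by
  unfold kmi
  split_ifs
  · rfl
  · exact conj_csq h

theorem t_KMI : S_KMI := by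
  intro β θ₀ lam hβ h0 h1 hi
  obtain ⟨d, hd⟩ : ∃ d, d = min θ₀.re (1 - θ₀.re) := ⟨_, rfl⟩
  have hd0 : 0 < d := by rw [hd]; exact lt_min h0 (by linarith)
  have hd1 : d ≤ θ₀.re := hd ▸ min_le_left _ _
  have hd2 : d ≤ 1 - θ₀.re := hd ▸ min_le_right _ _
  obtain ⟨r, hr⟩ : ∃ r, r = min d θ₀.im / 2 := ⟨_, rfl⟩
  have hr0 : 0 < r := by rw [hr]; exact half_pos (lt_min hd0 hi)
  have hr1 : r ≤ d / 2 := by rw [hr]; have := min_le_left d θ₀.im; linarith
  have hr2 : r ≤ θ₀.im / 2 := by rw [hr]; have := min_le_right d θ₀.im; linarith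
  obtain ⟨R, hR⟩ : ∃ R, R = ‖θ₀‖ + r := ⟨_, rfl⟩
  have hR0 : 0 ≤ R := by rw [hR]; positivity
  have hball : ∀ θ ∈ Metric.ball θ₀ r, |θ.re - θ₀.re| < r ∧ |θ.im - θ₀.im| < r ∧ ‖θ‖ ≤ R := by
    intro θ hθ
    rw [Metric.mem_ball, dist_eq_norm] at hθ
    refine ⟨?_, ?_, ?_⟩
    · rw [← Complex.sub_re]; exact (Complex.abs_re_le_norm _).trans_lt hθ
    · rw [← Complex.sub_im]; exact (Complex.abs_im_le_norm _).trans_lt hθ
    · have := norm_le_norm_add_norm_sub' θ θ₀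
      rw [hR]; linarith
  have hm : ∀ θ ∈ Metric.ball θ₀ r, ∀ m : ℤ, d / 2 ≤ |(m : ℝ) + θ.re| := by
    intro θ hθ m
    obtain ⟨h2, h3, h4⟩ := hball θ hθ
    rw [abs_lt] at h2
    rcases le_or_gt 0 m with h | h
    · have : (0 : ℝ) ≤ m := by exact_mod_cast h
      exact le_trans (by linarith) (le_abs_self _)
    · have : (m : ℝ) ≤ -1 := by
        have : m ≤ -1 := by omega
        exact_mod_cast this
      exact le_trans (by linarith) (neg_le_abs _)
  obtain ⟨b, hb⟩ : ∃ b, b = 2 * β ^ 2 * (d / 2) * (θ₀.im / 2) := ⟨_, rfl⟩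
  have hb0 : 0 < b := by rw [hb]; positivity
  have him : ∀ θ ∈ Metric.ball θ₀ r, ∀ m : ℤ,
      b ≤ |(((β : ℂ) * ((m : ℂ) + θ)) ^ 2 - (lam : ℂ)).im| := by
    intro θ hθ m
    obtain ⟨h2, h3, h4⟩ := hball θ hθ
    rw [w_im, abs_mul, abs_mul, abs_of_pos (by positivity : 0 < 2 * β ^ 2), hb]
    rw [abs_lt] at h3
    have h5 : θ₀.im / 2 ≤ |θ.im| := le_trans (by linarith) (le_abs_self _)
    exact mul_le_mul (mul_le_mul_of_nonneg_left (hm θ hθ m) (by positivity)) h5 (by positivity)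
      (by positivity)
  have hne : ∀ θ ∈ Metric.ball θ₀ r, ∀ m : ℤ,
      (((β : ℂ) * ((m : ℂ) + θ)) ^ 2 - (lam : ℂ)).im ≠ 0 := by
    intro θ hθ m h
    have := him θ hθ m
    rw [h, abs_zero] at this
    linarith
  have hK : ∀ θ ∈ Metric.ball θ₀ r, ∀ m : ℤ,
      kmi β θ lam m = csq (((β : ℂ) * ((m : ℂ) + θ)) ^ 2 - (lam : ℂ)) :=
    fun θ hθ m => kmi_eq (hne θ hθ m)
  refine ⟨r, √b, 2 * β * R + (β ^ 2 * R ^ 2 + |lam|) / β + (1 + (β ^ 2 * R ^ 2 + |lam|)), hr0,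
    Real.sqrt_pos.2 hb0, ?_, ?_⟩
  · intro m
    refine DifferentiableOn.congr (csq_diff ?_ fun θ hθ => hne θ hθ m) fun θ hθ => hK θ hθ m
    fun_prop
  · intro θ hθ
    obtain ⟨h2, h3, h4⟩ := hball θ hθ
    have hP : β ^ 2 * ‖θ‖ ^ 2 + |lam| ≤ β ^ 2 * R ^ 2 + |lam| := by
      have := pow_le_pow_left₀ (norm_nonneg θ) h4 2
      have := mul_le_mul_of_nonneg_left this (by positivity : 0 ≤ β ^ 2)
      linarith
    constructor
    · intro m
      rw [hK θ hθ m]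
      apply Real.sqrt_le_iff.2 ⟨norm_nonneg _, ?_⟩
      rw [csq_norm]
      exact (him θ hθ m).trans (Complex.abs_im_le_norm _)
    · intro m
      rw [hK θ hθ m]
      obtain ⟨κ, hκ⟩ : ∃ κ, κ = csq (((β : ℂ) * ((m : ℂ) + θ)) ^ 2 - (lam : ℂ)) := ⟨_, rfl⟩
      have hκ2 : κ ^ 2 = ((β : ℂ) * ((m : ℂ) + θ)) ^ 2 - (lam : ℂ) := by rw [hκ, csq_sq]
      have hκr : 0 ≤ κ.re := by rw [hκ]; exact csq_re _
      rw [← hκ]
      have hPR : 0 ≤ β ^ 2 * R ^ 2 + |lam| := by positivity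
      have hQ : 0 ≤ (β ^ 2 * R ^ 2 + |lam|) / β := by positivity
      rcases eq_or_ne m 0 with rfl | hm0
      · have h5 : ‖κ‖ ^ 2 ≤ β ^ 2 * R ^ 2 + |lam| := by
          rw [← norm_pow, hκ2]
          refine (norm_sub_le _ _).trans ?_
          rw [norm_pow, norm_mul, Complex.norm_real, Complex.norm_real, Real.norm_eq_abs,
            Real.norm_eq_abs, abs_of_pos hβ]
          push_cast
          rw [zero_add, mul_pow]
          exact hP
        have h6 : ‖κ‖ ≤ 1 + ‖κ‖ ^ 2 := by nlinarith [sq_nonneg (‖κ‖ - 1), norm_nonneg κ]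
        have h7 : 0 ≤ 2 * β * R := by positivity
        simp only [Int.cast_zero, abs_zero, mul_zero, Complex.ofReal_zero, sub_zero]
        linarith
      · have hm1 : (1 : ℝ) ≤ |(m : ℝ)| := by
          have := Int.one_le_abs hm0
          exact_mod_cast this
        have hbm : 0 < β * |(m : ℝ)| := by positivity
        have h5 : (κ - ((β * |(m : ℝ)| : ℝ) : ℂ)) * (κ + ((β * |(m : ℝ)| : ℝ) : ℂ)) =
            2 * β ^ 2 * m * θ + (β ^ 2 * θ ^ 2 - lam) := by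
          have h6 : (((β * |(m : ℝ)| : ℝ) : ℂ)) ^ 2 = β ^ 2 * m ^ 2 := by
            rw [← Complex.ofReal_pow, mul_pow, sq_abs]
            push_cast
            ring
          calc _ = κ ^ 2 - (((β * |(m : ℝ)| : ℝ) : ℂ)) ^ 2 := by ring
            _ = _ := by rw [h6, hκ2]; ring
        have h6 : β * |(m : ℝ)| ≤ ‖κ + ((β * |(m : ℝ)| : ℝ) : ℂ)‖ := by
          refine le_trans ?_ (Complex.re_le_norm _)
          rw [Complex.add_re, Complex.ofReal_re]
          linarith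
        have h7 : ‖2 * (β : ℂ) ^ 2 * m * θ + (β ^ 2 * θ ^ 2 - lam)‖ ≤
            2 * β ^ 2 * |(m : ℝ)| * ‖θ‖ + (β ^ 2 * ‖θ‖ ^ 2 + |lam|) := by
          refine (norm_add_le _ _).trans (add_le_add ?_ ((norm_sub_le _ _).trans ?_))
          · rw [norm_mul, norm_mul, norm_mul, norm_pow, Complex.norm_real, Complex.norm_intCast,
              Real.norm_eq_abs, abs_of_pos hβ, Complex.norm_ofNat]
          · rw [norm_mul, norm_pow, norm_pow, Complex.norm_real, Complex.norm_real,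
              Real.norm_eq_abs, Real.norm_eq_abs, abs_of_pos hβ]
        have h8 : ‖κ - ((β * |(m : ℝ)| : ℝ) : ℂ)‖ * (β * |(m : ℝ)|) ≤
            2 * β ^ 2 * |(m : ℝ)| * R + (β ^ 2 * R ^ 2 + |lam|) := by
          refine (mul_le_mul_of_nonneg_left h6 (norm_nonneg _)).trans ?_
          rw [← norm_mul, h5]
          refine h7.trans (add_le_add ?_ hP)
          exact mul_le_mul_of_nonneg_left h4 (by positivity)
        have h9 : 2 * β ^ 2 * |(m : ℝ)| * R + (β ^ 2 * R ^ 2 + |lam|) ≤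
            (2 * β * R + (β ^ 2 * R ^ 2 + |lam|) / β) * (β * |(m : ℝ)|) := by
          have e : (2 * β * R + (β ^ 2 * R ^ 2 + |lam|) / β) * (β * |(m : ℝ)|) =
              2 * β ^ 2 * |(m : ℝ)| * R + (β ^ 2 * R ^ 2 + |lam|) * |(m : ℝ)| := by
            field_simp
          rw [e]
          nlinarith
        have h10 := le_of_mul_le_mul_right (h8.trans h9) hbm
        linarith

end Pool.Agent.H671.LK
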